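import Pool.Agent.H365.TF.Stm

/-!
# TF QG: the group of elementary matrices is generated by its elements with entries in `i(B)`
-/

set_option autoImplicit false

namespace Pool.Agent.H365.TF

open Pool.Agent.N44.NS (E3 el)
open Pool.Agent.H365.LS (dU S_WHI)

namespace QG407

theorem el_val {A : Type} [Ring A] {i j : Fin 3} (h : i ≠ j) (x : A) :
    ((el i j h x : (Matrix (Fin 3) (Fin 3) A)ˣ) : Matrix (Fin 3) (Fin 3) A) =
      1 + Matrix.single i j x := rfl

theorem dU_val {A : Type} [Ring A] (i : Fin 3) (u : Aˣ) :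
    ((dU i u : (Matrix (Fin 3) (Fin 3) A)ˣ) : Matrix (Fin 3) (Fin 3) A) =
      Matrix.diagonal (Function.update (fun _ => (1 : A)) i (u : A)) := rfl

/-- conjugation with a diagonal matrix -/
theorem conj_el {A : Type} [Ring A] {i j : Fin 3} (h : i ≠ j) (u : Aˣ) (x : A) :
    el i j h x = dU j u * el i j h (x * u) * (dU j u)⁻¹ := by
  rw [eq_mul_inv_iff_mul_eq]
  apply Units.ext
  rw [Units.val_mul, Units.val_mul, el_val, el_val, dU_val, add_mul, mul_add, one_mul, mul_one]
  congr 1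
  ext p q
  rw [Matrix.mul_diagonal, Matrix.diagonal_mul]
  by_cases hpq : i = p ∧ j = q
  · obtain ⟨rfl, rfl⟩ := hpq
    rw [Matrix.single_apply_same, Matrix.single_apply_same, Function.update_self,
      Function.update_of_ne h, one_mul]
  · rw [Matrix.single_apply_of_ne _ _ _ _ _ hpq, Matrix.single_apply_of_ne _ _ _ _ _ hpq, zero_mul,
      mul_zero]

theorem el_mem {A B : Type} [Ring A] [Ring B] (ι : B →+* A) {i j : Fin 3} (h : i ≠ j) {x : A}
    (hx : x ∈ ι.range) :
    el i j h x ∈ Subgroup.closure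
      {t | t ∈ E3 A ∧ ∀ j k, ∃ b, (t : Matrix (Fin 3) (Fin 3) A) j k = ι b} := by
  refine Subgroup.subset_closure ⟨Subgroup.subset_closure ⟨i, j, h, x, rfl⟩, fun p q => ?_⟩
  have key : (((el i j h x : (Matrix (Fin 3) (Fin 3) A)ˣ) : Matrix (Fin 3) (Fin 3) A)) p q ∈
      ι.range := by
    rw [el_val, Matrix.add_apply]
    refine add_mem ?_ ?_
    · by_cases hpq : p = q
      · rw [hpq, Matrix.one_apply_eq]; exact one_mem _
      · rw [Matrix.one_apply_ne hpq]; exact zero_mem _
    · by_cases hpq : i = p ∧ j = q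
      · obtain ⟨rfl, rfl⟩ := hpq
        rw [Matrix.single_apply_same]; exact hx
      · rw [Matrix.single_apply_of_ne _ _ _ _ _ hpq]; exact zero_mem _
  obtain ⟨b, hb⟩ := key
  exact ⟨b, hb.symm⟩

theorem dU_mem (hW : S_WHI) {A B : Type} [Ring A] [Ring B] (ι : B →+* A) (f x y : Aˣ)
    (hf : f = x * y * x⁻¹ * y⁻¹) (hfB : (f : A) ∈ ι.range) (i : Fin 3) :
    dU i f ∈ Subgroup.closure
      {t | t ∈ E3 A ∧ ∀ j k, ∃ b, (t : Matrix (Fin 3) (Fin 3) A) j k = ι b} := by
  refine Subgroup.subset_closure ⟨?_, fun p q => ?_⟩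
  · rw [hf]
    exact (hW A x y).1 i
  · have key : (((dU i f : (Matrix (Fin 3) (Fin 3) A)ˣ) : Matrix (Fin 3) (Fin 3) A)) p q ∈
        ι.range := by
      rw [dU_val]
      by_cases hpq : p = q
      · rw [hpq, Matrix.diagonal_apply_eq]
        by_cases hq : q = i
        · rw [hq, Function.update_self]; exact hfB
        · rw [Function.update_of_ne hq]; exact one_mem _
      · rw [Matrix.diagonal_apply_ne _ hpq]; exact zero_mem _
    obtain ⟨b, hb⟩ := key
    exact ⟨b, hb.symm⟩

end QG407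

open QG407 in
theorem t_QG : S_WHI → S_QG := by
  intro hW A B _ _ ι f x y hf hfB hO
  have hfr : (f : A) ∈ ι.range := by
    obtain ⟨b, hb⟩ := hfB
    exact ⟨b, hb⟩
  have key : ∀ (i j : Fin 3) (h : i ≠ j) (k : ℕ) (z : A), z * (f : A) ^ k ∈ ι.range →
      el i j h z ∈ Subgroup.closure
        {t | t ∈ E3 A ∧ ∀ j k, ∃ b, (t : Matrix (Fin 3) (Fin 3) A) j k = ι b} := by
    intro i j h k
    induction k with
    | zero =>
      intro z hz
      rw [pow_zero, mul_one] at hz
      exact el_mem ι h hz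
    | succ k ih =>
      intro z hz
      have h1 : z * (f : A) * (f : A) ^ k ∈ ι.range := by
        rw [mul_assoc, ← pow_succ']; exact hz
      rw [conj_el h f z]
      exact mul_mem (mul_mem (dU_mem hW ι f x y hf hfr j) (ih _ h1))
        (inv_mem (dU_mem hW ι f x y hf hfr j))
  refine (Subgroup.closure_le _).2 ?_
  rintro g ⟨i, j, h, z, rfl⟩
  obtain ⟨k, b, hk⟩ := hO z
  exact key i j h k z ⟨b, hk.symm⟩

end Pool.Agent.H365.TF
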